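import Pool.Agent.V11131.Rab7

/-!
# The homeomorphism group of the 4-regular rabbit does not embed in that of the 3-regular rabbit

`Homeo(R_n)` is isomorphic, as a Polish group, to the universal group `U(Sym([n]), Aut(S))` of
the `(n, ∞)`-biregular tree (known, listed in the problem file). The theorem is about these
universal groups, in an explicit model of the tree of circles of `R_n` with `n = m + 1`:

* `S = ℚ ∪ {∞}` (`WithTop ℚ`), a countable dense subset of the circle `ℝ ∪ {∞}`, with the
  separation relation `Sep` of pairs of points;
* `Point m` are the vertices of degree `m + 1`, `Circle m` the vertices of infinite degree, and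
  `pt c s` is the neighbour of the circle `c` with label `s` in `S`;
* `U m` is the group of all pairs (permutation of the points, permutation of the circles) such
  that for every circle `c` there is a permutation `f` of `S` preserving the separation relation
  with `g (pt c s) = pt (g c) (f s)` for all `s`; that is, the automorphisms of the tree whose
  local action at every vertex of infinite degree is in `Aut(S)`.

The theorem: the incidence graph is a tree in which every point has degree `m + 1` and the
neighbours of every circle are labelled bijectively by `S`, and there is no injective
homomorphism (of abstract groups) from `U 3 = U(Sym([4]), Aut(S))` to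
`U 2 = U(Sym([3]), Aut(S))`. The reason is that `(ℤ/3)²` embeds in the first and not in the
second.
-/

namespace Pool.Agent.Results.MP_1730fe_al.NoEmbedding

open Pool.Agent.V11131.Rab

/-- There is an injective homomorphism of groups from `G` to `H`. -/
def Embeds (G H : Type) [Group G] [Group H] : Prop := ∃ φ : G →* H, Function.Injective φ

theorem result :
    (∀ m : ℕ, (circleTree m).IsTree) ∧
    (∀ (m : ℕ) (p : Point m), Nat.card {c : Circle m // ∃ s, pt c s = p} = m + 1) ∧
    (∀ (m : ℕ) (c : Circle m), Function.Injective (pt c)) ∧
    Embeds (Multiplicative (Fin 3 × Fin 3)) (U 3) ∧
    ¬ Embeds (Multiplicative (Fin 3 × Fin 3)) (U 2) ∧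
    ¬ Embeds (U 3) (U 2) :=
  ⟨circleTree_isTree, fun _ p => card_circles p, fun _ c => pt_inj c,
    ⟨rotHom.comp two, rotHom_inj.comp two_inj⟩, not_nine, no_emb⟩

end Pool.Agent.Results.MP_1730fe_al.NoEmbedding
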